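import Pool.Agent.J4H13.TG.Kills
import Pool.Agent.J4H13.BD.Final

/-!
# Correspondences on the triple covers of the plane branched along lines: the theorem
-/

set_option autoImplicit false

open FF

namespace Pool.Agent.J4H13.TG

open Pool.Agent.J4H13.BC Pool.Agent.J4H13.LA Pool.Agent.W602.GT Pool.Agent.W603.LV
  Pool.Agent.Helper397.HK Pool.Agent.J4H13.BD Pool.Agent.J4H13.TL

variable {K : Type} [Field K] [Algebra ℂ K]

/-- **Correspondences in the group ring.** -/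
theorem corr_lines3 (hKC3 : S_KC3) {x y : K} (hxy : AlgebraicIndependent ℂ ![x, y]) {k : ℕ} {w : Fin k → K}
    (hw : ∀ i, ∃ (n : ℕ) (l : Fin n → V3), (∀ j, l j ≠ 0) ∧ w i ^ 3 = ∏ j, ev (gp x y) (l j))
    (hgen : IntermediateField.adjoin ℂ ({x, y} ∪ Set.range w) = ⊤)
    {n : ℕ} {c : Fin n → ℚ} {g : Fin n → K ≃ₐ[ℂ] K} (hg : ∀ j, g j x = x ∧ g j y = y)
    (h2 : KillsTwo c g) (h1 : KillsOne c g) {N : ℕ} {Y : ProjVar N} {ξ : Fin (N + 1) → K}
    (hξ : ξ ∈ Y.Pts K) :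
    ∃ (B : Subalgebra ℂ K) (hB : ∀ j i, g j (ξ i) ∈ B), B.FG ∧
      ∀ (φ φ' : B →ₐ[ℂ] ℂ) (p p' : Fin n → Y.Pts ℂ),
        (∀ j i, (p j).1 i = φ ⟨g j (ξ i), hB j i⟩) →
        (∀ j i, (p' j).1 i = φ' ⟨g j (ξ i), hB j i⟩) →
        ∑ j, c j • cls (p j) = ∑ j, c j • cls (p' j) := by
  classical
  choose m l hl0 hw2 using hw
  obtain ⟨k₀, hk₀⟩ : ∃ k₀ : IntermediateField ℂ K, k₀ = IntermediateField.adjoin ℂ {x, y} :=
    ⟨_, rfl⟩
  have hxk : x ∈ k₀ := by
    rw [hk₀]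
    exact IntermediateField.subset_adjoin _ _ (Or.inl rfl)
  have hyk : y ∈ k₀ := by
    rw [hk₀]
    exact IntermediateField.subset_adjoin _ _ (Or.inr rfl)
  have hwk : ∀ i, w i ^ 3 ∈ k₀ := by
    intro i
    rw [hw2]
    exact _root_.prod_mem fun j _ => ev_mem hxk hyk _
  have hw0 : ∀ i, w i ≠ 0 := by
    intro i h
    have h1 : (∏ j, ev (gp x y) (l i j)) = 0 := by
      rw [← hw2, h]
      ring
    obtain ⟨j, -, hj⟩ := Finset.prod_eq_zero_iff.1 h1
    exact ev_gp_ne_zero hxy (hl0 i j) hj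
  have hgen' : IntermediateField.adjoin k₀ (Set.range w) = ⊤ := by
    apply IntermediateField.restrictScalars_injective ℂ
    rw [IntermediateField.restrictScalars_top, eq_top_iff, ← hgen,
      IntermediateField.adjoin_le_iff]
    rintro z (hz | hz)
    · change z ∈ IntermediateField.adjoin k₀ (Set.range w)
      have h1 : z ∈ k₀ := by
        rcases hz with rfl | hz
        · exact hxk
        · rw [Set.mem_singleton_iff] at hz
          rw [hz]
          exact hyk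
      exact (IntermediateField.adjoin k₀ (Set.range w)).algebraMap_mem ⟨z, h1⟩
    · change z ∈ IntermediateField.adjoin k₀ (Set.range w)
      exact IntermediateField.subset_adjoin _ _ hz
  obtain ⟨hfin, hgal⟩ := isGalois_cbrt hwk hgen'
  have hcharK : CharZero K := charZero_of_C K
  have hft : Fintype (K ≃ₐ[k₀] K) := Fintype.ofFinite _
  -- the automorphisms as elements of the Galois group
  have hr : ∀ j, ∃ σ : K ≃ₐ[k₀] K, ∀ z, σ z = g j z := by
    intro j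
    refine ⟨AlgEquiv.ofRingEquiv (f := (g j : K ≃+* K)) (fun z => ?_), fun z => rfl⟩
    have h3 : ∀ u, u ∈ k₀ → g j u = u := by
      intro u hu
      rw [hk₀] at hu
      exact fix_adjoin (hg j).1 (hg j).2 _ hu
    exact h3 z.1 z.2
  choose r hr using hr
  obtain ⟨Γ, hΓ⟩ : ∃ Γ : (K ≃ₐ[k₀] K) → ℚ, Γ = fun σ => ∑ j, if r j = σ then c j else 0 :=
    ⟨_, rfl⟩
  -- sums
  have hsumK : ∀ z : K, ∑ σ, (Γ σ : K) * σ z = ∑ j, (c j : K) * g j z := by
    intro z
    rw [hΓ]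
    have h3 : ∀ σ : K ≃ₐ[k₀] K, ((∑ j, if r j = σ then c j else 0 : ℚ) : K) * σ z =
        ∑ j, if r j = σ then (c j : K) * σ z else 0 := by
      intro σ
      rw [Rat.cast_sum, Finset.sum_mul]
      refine Finset.sum_congr rfl fun j _ => ?_
      by_cases h : r j = σ
      · rw [if_pos h, if_pos h]
      · rw [if_neg h, if_neg h, Rat.cast_zero, zero_mul]
    simp only [h3]
    rw [Finset.sum_comm]
    refine Finset.sum_congr rfl fun j _ => ?_
    rw [Finset.sum_ite_eq Finset.univ (r j), if_pos (Finset.mem_univ _), hr]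
  have hsumC : ∀ q : (K ≃ₐ[k₀] K) → Y.Pts ℂ, ∑ σ, Γ σ • cls (q σ) = ∑ j, c j • cls (q (r j)) := by
    intro q
    rw [hΓ]
    have h3 : ∀ σ : K ≃ₐ[k₀] K, (∑ j, if r j = σ then c j else 0 : ℚ) • cls (q σ) =
        ∑ j, if r j = σ then c j • cls (q σ) else 0 := by
      intro σ
      rw [Finset.sum_smul]
      refine Finset.sum_congr rfl fun j _ => ?_
      by_cases h : r j = σ
      · rw [if_pos h, if_pos h]
      · rw [if_neg h, if_neg h, zero_smul]
    simp only [h3]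
    rw [Finset.sum_comm]
    refine Finset.sum_congr rfl fun j _ => ?_
    rw [Finset.sum_ite_eq Finset.univ (r j), if_pos (Finset.mem_univ _)]
  have hxE : x ∈ IntermediateField.adjoin ℂ ({x, y} : Set K) :=
    IntermediateField.subset_adjoin _ _ (Or.inl rfl)
  have hyE : y ∈ IntermediateField.adjoin ℂ ({x, y} : Set K) :=
    IntermediateField.subset_adjoin _ _ (Or.inr rfl)
  have hk₀u : ∃ m : ℕ, Nonempty (k₀ →ₐ[ℂ] FractionRing (PR m)) := by
    rw [hk₀]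
    exact ⟨2, embed_of_two hxy hxE hyE⟩
  obtain ⟨B, hB, hBfg, hmain⟩ := hKC3 hwk hw0 hgen' Γ hk₀u (by
    intro S hS
    rw [hsumK] at hS
    have hS2 : (∏ i, w i ^ (S i : ℕ)) ^ 3 =
        ∏ p ∈ Finset.univ.sigma (fun i : Fin k => (Finset.univ : Finset (Fin (m i)))),
        ev (gp x y) (l p.1 p.2) ^ (S p.1 : ℕ) := by
      rw [← Finset.prod_pow, Finset.prod_sigma]
      refine Finset.prod_congr rfl fun i _ => ?_
      rw [← pow_mul, mul_comm, pow_mul, hw2]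
      exact (Finset.prod_pow _ _ _).symm
    have hmem3 : (∏ i, w i ^ (S i : ℕ)) ^ 3 ∈ IntermediateField.adjoin ℂ ({x, y} : Set K) := by
      rw [hS2]
      exact _root_.prod_mem fun p _ => pow_mem (ev_mem hxE hyE _) _
    obtain ⟨L, hx, hy, hwL, q, hL⟩ := good_all hxy hxE hyE
      (l := fun p : (i : Fin k) × Fin (m i) => l p.1 p.2) (fun p => hl0 p.1 p.2) _
      (fun p => (S p.1 : ℕ)) (noForms_of_kills hg h2 h1 hmem3 hS) hS2
    refine ⟨L, ?_, hwL, q, hL⟩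
    rw [hk₀, IntermediateField.adjoin_le_iff]
    rintro z (rfl | hz)
    · exact hx
    · rw [Set.mem_singleton_iff] at hz
      rw [hz]
      exact hy) ξ
  obtain ⟨i₀, hi₀⟩ := Function.ne_iff.1 hξ.1
  obtain ⟨B', hB'def⟩ : ∃ B' : Subalgebra ℂ K, B' = B ⊔
    Algebra.adjoin ℂ (Set.range fun σ : K ≃ₐ[k₀] K => (σ (ξ i₀))⁻¹) := ⟨_, rfl⟩
  have hBB : B ≤ B' := by
    rw [hB'def]
    exact le_sup_left
  have hinv : ∀ σ : K ≃ₐ[k₀] K, (σ (ξ i₀))⁻¹ ∈ B' := by
    intro σ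
    rw [hB'def]
    exact (le_sup_right : Algebra.adjoin ℂ (Set.range fun σ : K ≃ₐ[k₀] K => (σ (ξ i₀))⁻¹) ≤ _)
      (Algebra.subset_adjoin ⟨σ, rfl⟩)
  refine ⟨B', fun j i => hBB (by rw [← hr]; exact hB (r j) i), ?_, ?_⟩
  · rw [hB'def]
    exact hBfg.sup (Subalgebra.fg_def.2 ⟨_, Set.finite_range _, rfl⟩)
  intro φ φ' p p' hp hp'
  -- the points of the orbit
  have hpt : ∀ ψ : B' →ₐ[ℂ] ℂ, ∀ σ : K ≃ₐ[k₀] K,
      (fun i => ψ ⟨σ (ξ i), hBB (hB σ i)⟩) ∈ Y.Pts ℂ := by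
    intro ψ σ
    constructor
    · intro h3
      have h4 : ψ ⟨σ (ξ i₀), hBB (hB σ i₀)⟩ = 0 := congrFun h3 i₀
      have h5 : (⟨σ (ξ i₀), hBB (hB σ i₀)⟩ : B') * ⟨_, hinv σ⟩ = 1 := by
        apply Subtype.ext
        change σ (ξ i₀) * (σ (ξ i₀))⁻¹ = 1
        exact mul_inv_cancel₀ fun h6 => hi₀ (by
          have h7 := σ.injective (h6.trans (map_zero σ).symm)
          exact h7)
      have h6 := congrArg ψ h5
      rw [map_mul, h4, zero_mul, map_one] at h6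
      exact zero_ne_one h6
    · have h3 : ProjVar.OnCone Y (fun i => (⟨σ (ξ i), hBB (hB σ i)⟩ : B')) := by
        apply ProjVar.OnCone.of_injective B'.val Subtype.val_injective
        have h4 : ProjVar.OnCone Y ξ := hξ.2
        exact h4.map ((σ : K →ₐ[k₀] K).restrictScalars ℂ)
      exact h3.map ψ
  have hval : ∀ (ψ : B' →ₐ[ℂ] ℂ) (q : Fin n → Y.Pts ℂ),
      (∀ j i, (q j).1 i = ψ ⟨g j (ξ i), hBB (by rw [← hr]; exact hB (r j) i)⟩) →
      ∑ j, c j • cls (q j) = ∑ σ, Γ σ • cls (⟨_, hpt ψ σ⟩ : Y.Pts ℂ) := by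
    intro ψ q hq
    rw [hsumC]
    refine Finset.sum_congr rfl fun j _ => ?_
    congr 2
    apply Subtype.ext
    funext i
    rw [hq]
    change _ = ψ _
    congr 1
    exact Subtype.ext (hr j _).symm
  rw [hval φ p hp, hval φ' p' hp']
  exact hmain Y hξ.2 (φ.comp (Subalgebra.inclusion hBB)) (φ'.comp (Subalgebra.inclusion hBB))
    (fun σ => ⟨_, hpt φ σ⟩) (fun σ => ⟨_, hpt φ' σ⟩) (fun σ i => rfl) (fun σ i => rfl)

end Pool.Agent.J4H13.TG
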