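import Pool.Agent.J4H13.TL.K3
import Pool.Agent.J4H13.BD.KummerCorr

/-!
# Job for the project TG (group ring of the triple covers)
-/

set_option autoImplicit false

open MvPolynomial

namespace Pool.Agent.J4H13.TG

open Pool.Agent.Helper397.HK Pool.Agent.J4H13.BC Pool.Agent.J4H13.BD

/-- JOB KC3 (the analogue of `BD.kummer_corr` for cube roots). Proof. Notation as in `TL.t_K3` (file TL/K3): `σ (w i) = Z^{a σ i} w i`,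
`χ_e (σ) = Z^{∑ e_i a σ i}` for `e : Fin k → Fin 3`, `H e` the stabilizer of `wS e = ∏ w_i^{e_i}`, `σ ∈ H e ↔ χ_e σ = 1`. Put
`Γ^(e) = ∑_σ Γ σ χ_e(σ)`, so `∑_σ Γ σ σ(wS e) = Γ^(e) wS e`, and `S = {e | Γ^(e) ≠ 0}`. `e ↦ -e` preserves `S`, as `Γ` is rational
(complex conjugation, or: both are nonzero polynomials in `Z` which are exchanged by `Z ↦ Z²`; `x + y Z = 0` iff `x = y = 0` iff
`x + y Z² = 0` for rational `x, y`). Put `ε σ = ∑_{e ∈ S} (3 [σ ∈ H e] - 1) / (2 · 3^k)`; since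
`χ_e σ + χ_{-e} σ = 3 [σ ∈ H e] - 1`, this is `3^{-k} ∑_{e ∈ S} χ_e (σ)^{-1}`.
(1) `machine_corr` applies to `ε` and to EVERY vector `ξ`: index type `Option S`, `H' none = ⊤`, `c none = - |S| / (2 · 3^k)`,
`H' (some e) = H e`, `c (some e) = 3 / (2 · 3^k)`; the embeddings come from `hk₀` and `huni` (as in `kummer_corr`).
(2) `∑_{τ ∈ G} Γ τ ε (τ⁻¹ ρ) = Γ ρ`: the left side is `3^{-k} ∑_{e ∈ S} χ_e(ρ)^{-1} Γ^(e) = 3^{-k} ∑_e χ_e(ρ)^{-1} Γ^(e)`, and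
`∑_e χ_e (τ ρ⁻¹) = 3^k` if `τ = ρ`, else `0` (`TL.count3` or its proof).
(3) Apply (1) to the vectors `τ • ξ`, `τ ∈ G`; `B` = the sup of the algebras `B_τ`. For a point `φ` of `B` and `p σ = φ (σ ξ)`, the
points `p^τ (σ) = p (σ τ) = φ (σ (τ ξ))` are as in (1), so `∑_σ ε σ cls (p (σ τ))` does not depend on `φ`. Multiply with `Γ τ` and sum
over `τ`: `∑_ρ (∑_{σ τ = ρ} ε σ Γ τ) cls (p ρ) = ∑_ρ Γ ρ cls (p ρ)` (`G` is commutative, as it embeds in the diagonal matrices; or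
use `ε (ρ τ⁻¹)` in (2), which has the same proof). -/
def S_KC3 : Prop := ∀ {K : Type} [Field K] [Algebra ℂ K] {k₀ : IntermediateField ℂ K} {k : ℕ}
  {w : Fin k → K}, (∀ i, w i ^ 3 ∈ k₀) → (∀ i, w i ≠ 0) →
  IntermediateField.adjoin k₀ (Set.range w) = ⊤ → ∀ [Fintype (K ≃ₐ[k₀] K)]
  (Γ : (K ≃ₐ[k₀] K) → ℚ), (∃ m : ℕ, Nonempty (k₀ →ₐ[ℂ] FractionRing (PR m))) →
  (∀ e : Fin k → Fin 3, ∑ σ, (Γ σ : K) * σ (∏ i, w i ^ (e i : ℕ)) ≠ 0 →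
    ∃ L : IntermediateField ℂ K, k₀ ≤ L ∧ ∏ i, w i ^ (e i : ℕ) ∈ L ∧
    ∃ m : ℕ, Nonempty (L →ₐ[ℂ] FractionRing (PR m))) →
  ∀ {N : ℕ} (ξ : Fin (N + 1) → K),
  ∃ (B : Subalgebra ℂ K) (hB : ∀ (σ : K ≃ₐ[k₀] K) i, σ (ξ i) ∈ B), B.FG ∧
    ∀ (Y : ProjVar N), Y.OnCone ξ → ∀ (φ φ' : B →ₐ[ℂ] ℂ) (p p' : (K ≃ₐ[k₀] K) → Y.Pts ℂ),
      (∀ σ i, (p σ).1 i = φ ⟨σ (ξ i), hB σ i⟩) → (∀ σ i, (p' σ).1 i = φ' ⟨σ (ξ i), hB σ i⟩) →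
      ∑ σ, Γ σ • cls (p σ) = ∑ σ, Γ σ • cls (p' σ)

end Pool.Agent.J4H13.TG
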