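import Pool.Agent.J4H13.TG.Jobs

/-!
# The machine for the group ring of extensions generated by cube roots
-/

set_option autoImplicit false

open MvPolynomial

namespace Pool.Agent.J4H13.TG

open Pool.Agent.Helper397.HK Pool.Agent.J4H13.BC Pool.Agent.J4H13.BD Pool.Agent.J4H13.TL

lemma lin_zero {K : Type} [Field K] [CharZero K] {Z : K} (hZ : 1 + Z + Z ^ 2 = 0) (x y : ℚ) :
    (x : K) + y * Z = 0 ↔ x = 0 ∧ y = 0 := by
  constructor
  · intro h
    have h1 : ((x ^ 2 - x * y + y ^ 2 : ℚ) : K) = 0 := by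
      push_cast
      have h3 : Z ^ 3 = 1 := by linear_combination (Z - 1) * hZ
      linear_combination (x + y * Z ^ 2) * h - (x : K) * y * hZ - (y : K) ^ 2 * h3
    have h2 : x ^ 2 - x * y + y ^ 2 = 0 := by exact_mod_cast h1
    constructor <;> nlinarith [sq_nonneg (x - y), sq_nonneg x, sq_nonneg y, sq_nonneg (x + y)]
  · rintro ⟨rfl, rfl⟩
    simp

/-- conjugation of a rational combination of powers of a cube root of one -/
lemma vanish_conj {K : Type} [Field K] [CharZero K] {Z : K} (hZ : 1 + Z + Z ^ 2 = 0)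
    {G : Type} [Fintype G] (Γ : G → ℚ) (m : G → ℕ) :
    ∑ τ, (Γ τ : K) * Z ^ m τ = 0 ↔ ∑ τ, (Γ τ : K) * (Z ^ m τ) ^ 2 = 0 := by
  have h3 : Z ^ 3 = 1 := by linear_combination (Z - 1) * hZ
  have hZ2 : 1 + Z ^ 2 + (Z ^ 2) ^ 2 = 0 := by linear_combination hZ + Z * h3
  have hxy : ∀ τ, ∃ x y : ℚ, Z ^ m τ = x + y * Z ∧ (Z ^ m τ) ^ 2 = x + y * Z ^ 2 := by
    intro τ
    have h1 : Z ^ m τ = Z ^ (m τ % 3) := by
      conv_lhs => rw [← Nat.div_add_mod (m τ) 3, pow_add, pow_mul, h3, one_pow, one_mul]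
    have h2 : m τ % 3 < 3 := Nat.mod_lt _ (by norm_num)
    rw [h1]
    rcases (by omega : m τ % 3 = 0 ∨ m τ % 3 = 1 ∨ m τ % 3 = 2) with h | h | h
    · exact ⟨1, 0, by rw [h]; simp, by rw [h]; simp⟩
    · exact ⟨0, 1, by rw [h]; simp, by rw [h]; simp⟩
    · refine ⟨-1, -1, ?_, ?_⟩
      · rw [h]
        push_cast
        linear_combination hZ
      · rw [h]
        push_cast
        linear_combination hZ2
  choose x y h1 h2 using hxy
  have e1 : ∑ τ, (Γ τ : K) * Z ^ m τ = ((∑ τ, Γ τ * x τ : ℚ) : K) + ((∑ τ, Γ τ * y τ : ℚ) : K) * Z := by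
    push_cast
    rw [Finset.sum_mul, ← Finset.sum_add_distrib]
    refine Finset.sum_congr rfl fun τ _ => ?_
    rw [h1]
    ring
  have e2 : ∑ τ, (Γ τ : K) * (Z ^ m τ) ^ 2 =
      ((∑ τ, Γ τ * x τ : ℚ) : K) + ((∑ τ, Γ τ * y τ : ℚ) : K) * Z ^ 2 := by
    push_cast
    rw [Finset.sum_mul, ← Finset.sum_add_distrib]
    refine Finset.sum_congr rfl fun τ _ => ?_
    rw [h2]
    ring
  rw [e1, e2, lin_zero hZ, lin_zero hZ2]

/-- **The machine for cube roots.** -/
theorem t_KC3 : S_KC3 := by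
  classical
  intro K _ _ k₀ k w hw hw0 hgen _ Γ hk₀ huni N ξ
  obtain ⟨hfin, hgal⟩ := isGalois_cbrt hw hgen
  let G := K ≃ₐ[k₀] K
  have hcomm : SMulCommClass G ℂ K := by
    refine ⟨fun σ c x => ?_⟩
    change σ (c • x) = c • σ x
    rw [Algebra.smul_def, Algebra.smul_def, map_mul]
    congr 1
    exact σ.commutes (algebraMap ℂ k₀ c)
  have hcharK : CharZero K := charZero_of_C K
  obtain ⟨ζ, h3, hζ⟩ := exists_zeta
  obtain ⟨Z, hZ⟩ : ∃ Z : K, Z = algebraMap ℂ K ζ := ⟨_, rfl⟩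
  have hZ1 : 1 + Z + Z ^ 2 = 0 := by
    have := congrArg (algebraMap ℂ K) hζ
    rw [hZ]
    simpa using this
  have hZpow : ∀ m : ℕ, Z ^ m = 1 ↔ 3 ∣ m := by
    intro m
    rw [← (zeta_pow h3 hζ m).2, hZ, ← map_pow]
    constructor
    · intro h
      rw [← map_one (algebraMap ℂ K)] at h
      exact (algebraMap ℂ K).injective h
    · intro h
      rw [h, map_one]
  have hZsum : ∀ m : ℕ, Z ^ m + (Z ^ m) ^ 2 = ((if 3 ∣ m then 2 else -1 : ℚ) : K) := by
    intro m
    have h1 := congrArg (algebraMap ℂ K) (zeta_pow h3 hζ m).1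
    rw [map_add, map_add, map_one, map_pow, map_pow, map_pow, ← hZ] at h1
    by_cases hm : 3 ∣ m
    · rw [if_pos hm] at h1 ⊢
      have : algebraMap ℂ K 3 = 3 := map_ofNat (algebraMap ℂ K) 3
      rw [this] at h1
      push_cast
      linear_combination h1
    · rw [if_neg hm] at h1 ⊢
      rw [map_zero] at h1
      push_cast
      linear_combination h1
  have hZ3 : Z ^ 3 = 1 := (hZpow 3).2 (dvd_refl 3)
  have hZσ : ∀ (σ : G), σ Z = Z := by
    intro σ
    rw [hZ]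
    exact σ.commutes (algebraMap ℂ k₀ ζ)
  -- the exponents
  have hsign : ∀ (σ : G) (i : Fin k), ∃ a : ℕ, σ (w i) = Z ^ a * w i := by
    intro σ i
    have h1 : σ (w i) ^ 3 = w i ^ 3 := by
      rw [← map_pow]
      exact σ.commutes ⟨w i ^ 3, hw i⟩
    have h2 := cube_fac hZ1 (σ (w i)) (w i)
    rw [h1, sub_self] at h2
    rcases mul_eq_zero.1 h2.symm with h | h
    · exact ⟨0, by rw [pow_zero, one_mul]; exact sub_eq_zero.1 h⟩
    rcases mul_eq_zero.1 h with h | h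
    · exact ⟨1, by rw [pow_one]; exact sub_eq_zero.1 h⟩
    · exact ⟨2, sub_eq_zero.1 h⟩
  choose a haw using hsign
  let wS : (Fin k → Fin 3) → K := fun e => ∏ i, w i ^ (e i : ℕ)
  have hwS0 : ∀ e, wS e ≠ 0 := fun e => Finset.prod_ne_zero_iff.2 fun i _ =>
    pow_ne_zero _ (hw0 i)
  let m : (Fin k → Fin 3) → G → ℕ := fun e σ => ∑ i, (e i : ℕ) * a σ i
  have hσS : ∀ (σ : G) (e), σ (wS e) = Z ^ m e σ * wS e := by
    intro σ e
    change σ (∏ i, w i ^ (e i : ℕ)) = Z ^ (∑ i, (e i : ℕ) * a σ i) * _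
    rw [map_prod, ← Finset.prod_pow_eq_pow_sum, ← Finset.prod_mul_distrib]
    refine Finset.prod_congr rfl fun i _ => ?_
    rw [map_pow, haw, mul_pow, ← pow_mul, mul_comm (a σ i)]
  have hmul : ∀ e (σ τ : G), Z ^ m e (σ * τ) = Z ^ m e σ * Z ^ m e τ := by
    intro e σ τ
    have h1 : (σ * τ) (wS e) = σ (τ (wS e)) := rfl
    rw [hσS, hσS, map_mul, map_pow, hZσ, hσS, ← mul_assoc, mul_comm (Z ^ m e τ)] at h1
    exact mul_right_cancel₀ (hwS0 e) h1
  have hone : ∀ e, Z ^ m e (1 : G) = 1 := by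
    intro e
    have h1 : (1 : G) (wS e) = wS e := rfl
    rw [hσS] at h1
    exact (mul_eq_right₀ (hwS0 e)).1 h1
  have hcube : ∀ n : ℕ, (Z ^ n) ^ 3 = 1 := by
    intro n
    rw [← pow_mul, mul_comm, pow_mul, hZ3, one_pow]
  have hinv : ∀ e (τ : G), Z ^ m e τ⁻¹ = (Z ^ m e τ) ^ 2 := by
    intro e τ
    have h1 := hmul e τ⁻¹ τ
    rw [inv_mul_cancel, hone] at h1
    have h2 := hcube (m e τ)
    have h4 : Z ^ m e τ ≠ 0 := by
      intro h
      rw [h] at h1
      simp at h1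
    apply mul_right_cancel₀ h4
    rw [← h1, ← h2]
    ring
  let H : (Fin k → Fin 3) → Subgroup G := fun e => MulAction.stabilizer G (wS e)
  have hmem : ∀ (σ : G) e, σ ∈ H e ↔ 3 ∣ m e σ := by
    intro σ e
    rw [MulAction.mem_stabilizer_iff]
    change σ (wS e) = wS e ↔ _
    rw [hσS, ← hZpow]
    exact mul_eq_right₀ (hwS0 e)
  have hk0 : (3 : ℚ) ^ k ≠ 0 := pow_ne_zero _ (by norm_num)
  have hσ1 : ∀ σ : G, σ ≠ 1 → ∃ i, ¬ 3 ∣ a σ i := by
    intro σ hσ
    by_contra hcon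
    push Not at hcon
    apply hσ
    have h7 : ∀ x : K, σ x = x := by
      have h8 : IntermediateField.adjoin k₀ (Set.range w) ≤
          IntermediateField.fixedField (Subgroup.zpowers σ) := by
        rw [IntermediateField.adjoin_le_iff]
        rintro _ ⟨i, rfl⟩
        rw [SetLike.mem_coe, IntermediateField.mem_fixedField_iff]
        intro τ hτ
        have h9 : σ (w i) = w i := by rw [haw, (hZpow _).2 (hcon i), one_mul]
        have h10 : Subgroup.zpowers σ ≤ MulAction.stabilizer G (w i) := by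
          rw [Subgroup.zpowers_le, MulAction.mem_stabilizer_iff]
          exact h9
        exact h10 hτ
      intro x
      have h11 : x ∈ IntermediateField.fixedField (Subgroup.zpowers σ) := by
        apply h8
        rw [hgen]
        trivial
      exact (IntermediateField.mem_fixedField_iff _ _).1 h11 σ (Subgroup.mem_zpowers σ)
    ext x
    exact h7 x
  -- the sum of the characters
  let ind : (Fin k → Fin 3) → G → ℚ := fun e σ => if 3 ∣ m e σ then 2 else -1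
  have hindX : ∀ e σ, ((ind e σ : ℚ) : K) = Z ^ m e σ + (Z ^ m e σ) ^ 2 := fun e σ =>
    (hZsum _).symm
  have hindsum : ∀ σ : G, ∑ e, ind e σ = if σ = 1 then 2 * 3 ^ k else 0 := by
    intro σ
    by_cases hσ : σ = 1
    · rw [if_pos hσ]
      have h1 : ∀ e, ind e σ = 2 := by
        intro e
        change (if 3 ∣ m e σ then (2 : ℚ) else -1) = 2
        rw [if_pos]
        rw [← hZpow, hσ, hone]
      rw [Finset.sum_congr rfl fun e _ => h1 e, Finset.sum_const, Finset.card_univ,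
        Fintype.card_fun, Fintype.card_fin, Fintype.card_fin, nsmul_eq_mul]
      push_cast
      ring
    · rw [if_neg hσ]
      have h1 : ∀ e, ind e σ = (if 3 ∣ ∑ i, (e i : ℕ) * a σ i then (3 : ℚ) else 0) - 1 := by
        intro e
        change (if 3 ∣ ∑ i, (e i : ℕ) * a σ i then (2 : ℚ) else -1) = _
        split_ifs <;> norm_num
      rw [Finset.sum_congr rfl fun e _ => h1 e, Finset.sum_sub_distrib, count3 _ (hσ1 σ hσ),
        Finset.sum_const, Finset.card_univ, Fintype.card_fun, Fintype.card_fin, Fintype.card_fin,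
        nsmul_eq_mul]
      push_cast
      ring
  let γ : (Fin k → Fin 3) → K := fun e => ∑ τ, (Γ τ : K) * Z ^ m e τ
  have hγ : ∀ e, ∑ σ, (Γ σ : K) * σ (wS e) = γ e * wS e := by
    intro e
    change _ = (∑ τ, (Γ τ : K) * Z ^ m e τ) * wS e
    rw [Finset.sum_mul]
    refine Finset.sum_congr rfl fun σ _ => ?_
    rw [hσS, mul_assoc]
  let S : Finset (Fin k → Fin 3) := Finset.univ.filter fun e => γ e ≠ 0
  have hvan : ∀ (ρ : G) e, e ∉ S → ∑ τ, Γ τ * ind e (ρ * τ⁻¹) = 0 := by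
    intro ρ e he
    have h1 : γ e = 0 := by
      by_contra h
      exact he (Finset.mem_filter.2 ⟨Finset.mem_univ _, h⟩)
    have h2 : ∑ τ, (Γ τ : K) * (Z ^ m e τ) ^ 2 = 0 := (vanish_conj hZ1 Γ (m e)).1 h1
    have h5 : ((∑ τ, Γ τ * ind e (ρ * τ⁻¹) : ℚ) : K) =
        Z ^ m e ρ * ∑ τ, (Γ τ : K) * (Z ^ m e τ) ^ 2 + (Z ^ m e ρ) ^ 2 * γ e := by
      change _ = _ + (Z ^ m e ρ) ^ 2 * ∑ τ, (Γ τ : K) * Z ^ m e τ
      rw [Rat.cast_sum, Finset.mul_sum, Finset.mul_sum, ← Finset.sum_add_distrib]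
      refine Finset.sum_congr rfl fun τ _ => ?_
      rw [Rat.cast_mul, hindX, hmul, hinv]
      have h6 := hcube (m e τ)
      linear_combination (Γ τ : K) * (Z ^ m e ρ) ^ 2 * Z ^ m e τ * h6
    rw [h2, h1, mul_zero, mul_zero, add_zero] at h5
    exact_mod_cast h5
  let ε : G → ℚ := fun σ => (∑ e ∈ S, ind e σ) / (2 * 3 ^ k)
  have hε : ∀ ρ : G, ∑ τ, Γ τ * ε (ρ * τ⁻¹) = Γ ρ := by
    intro ρ
    have h1 : ∑ τ, Γ τ * ε (ρ * τ⁻¹) = (∑ e ∈ S, ∑ τ, Γ τ * ind e (ρ * τ⁻¹)) / (2 * 3 ^ k) := by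
      rw [Finset.sum_comm, Finset.sum_div]
      refine Finset.sum_congr rfl fun τ _ => ?_
      change Γ τ * ((∑ e ∈ S, ind e (ρ * τ⁻¹)) / (2 * 3 ^ k)) = _
      rw [← Finset.mul_sum]
      ring
    have h2 : ∑ e ∈ S, ∑ τ, Γ τ * ind e (ρ * τ⁻¹) = ∑ e, ∑ τ, Γ τ * ind e (ρ * τ⁻¹) :=
      Finset.sum_subset (Finset.subset_univ S) fun e _ he => hvan ρ e he
    rw [h1, h2, Finset.sum_comm]
    have h4 : ∀ τ : G, ∑ e, Γ τ * ind e (ρ * τ⁻¹) = if τ = ρ then 2 * 3 ^ k * Γ τ else 0 := by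
      intro τ
      rw [← Finset.mul_sum, hindsum]
      by_cases h5 : τ = ρ
      · rw [if_pos h5, if_pos (by rw [h5, mul_inv_cancel])]
        ring
      · rw [if_neg h5, if_neg (fun h6 => h5 (mul_inv_eq_one.1 h6).symm), mul_zero]
    rw [Finset.sum_congr rfl fun τ _ => h4 τ, Finset.sum_ite_eq' Finset.univ ρ,
      if_pos (Finset.mem_univ _)]
    field_simp
  -- the machine
  let H' : Option S → Subgroup G := fun o => o.elim ⊤ (fun e => H e.1)
  let c : Option S → ℚ := fun o => o.elim (-(S.card : ℚ) / (2 * 3 ^ k)) (fun _ => 3 / (2 * 3 ^ k))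
  have hcoef : ∀ σ : G, ∑ i, @ite ℚ (σ ∈ H' i) (Classical.propDecidable _) (c i) 0 = ε σ := by
    intro σ
    rw [Fintype.sum_option]
    have htop : σ ∈ H' none := Subgroup.mem_top σ
    rw [if_pos htop]
    have h1 : ∀ e : S, @ite ℚ (σ ∈ H' (some e)) (Classical.propDecidable _) (c (some e)) 0 =
        (ind e.1 σ + 1) / (2 * 3 ^ k) := by
      intro e
      change _ = ((if 3 ∣ m e.1 σ then (2 : ℚ) else -1) + 1) / (2 * 3 ^ k)
      by_cases he : 3 ∣ m e.1 σ
      · have he' : σ ∈ H' (some e) := (hmem σ e.1).2 he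
        rw [if_pos he', if_pos he]
        change (3 : ℚ) / (2 * 3 ^ k) = _
        norm_num
      · have he' : σ ∉ H' (some e) := fun h => he ((hmem σ e.1).1 h)
        rw [if_neg he', if_neg he]
        norm_num
    rw [Finset.sum_congr rfl fun e _ => h1 e,
      Finset.sum_coe_sort S (fun e => (ind e σ + 1) / (2 * 3 ^ k)), ← Finset.sum_div,
      Finset.sum_add_distrib, Finset.sum_const, nsmul_eq_mul, mul_one]
    change -(S.card : ℚ) / (2 * 3 ^ k) + _ = (∑ e ∈ S, ind e σ) / (2 * 3 ^ k)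
    ring
  have huni1 : ∀ e : Fin k → Fin 3, (∃ L : IntermediateField ℂ K, k₀ ≤ L ∧
      ∏ i, w i ^ (e i : ℕ) ∈ L ∧ ∃ m : ℕ, Nonempty (L →ₐ[ℂ] FractionRing (PR m))) →
      ∃ (m : ℕ) (j : FixedPoints.subalgebra ℂ K (H e) →ₐ[ℂ] FractionRing (PR m)),
      Function.Injective j := by
    rintro e ⟨L, hkL, hSL, m, ⟨j⟩⟩
    have hle : ∀ x ∈ FixedPoints.subalgebra ℂ K (H e), x ∈ L := by
      intro x hx
      have h1 : x ∈ IntermediateField.fixedField
          (IntermediateField.fixingSubgroup (IntermediateField.adjoin k₀ {wS e})) := by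
        rw [IntermediateField.mem_fixedField_iff]
        intro σ hσ
        have h2 : σ ∈ H e := by
          rw [MulAction.mem_stabilizer_iff]
          exact (IntermediateField.mem_fixingSubgroup_iff _ _).1 hσ _
            (IntermediateField.mem_adjoin_simple_self k₀ _)
        exact hx ⟨σ, h2⟩
      rw [IsGalois.fixedField_fixingSubgroup] at h1
      have h3 : (IntermediateField.adjoin k₀ {wS e}).restrictScalars ℂ ≤ L := by
        intro z hz
        have h4 : IntermediateField.adjoin k₀ {wS e} ≤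
            IntermediateField.extendScalars hkL := by
          rw [IntermediateField.adjoin_simple_le_iff]
          exact hSL
        exact h4 hz
      exact h3 h1
    let ε : FixedPoints.subalgebra ℂ K (H e) →ₐ[ℂ] L :=
      Subalgebra.inclusion (S := FixedPoints.subalgebra ℂ K (H e)) (T := L.toSubalgebra) hle
    exact ⟨m, j.comp ε, j.injective.comp (Subalgebra.inclusion_injective hle)⟩
  have huni2 : ∀ o, ∃ (m : ℕ)
      (j : FixedPoints.subalgebra ℂ K (H' o) →ₐ[ℂ] FractionRing (PR m)),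
      Function.Injective j := by
    intro o
    cases o with
    | none =>
      obtain ⟨m, j, hj⟩ := huni1 0 ⟨k₀, le_rfl, by simp, hk₀⟩
      have hle : FixedPoints.subalgebra ℂ K (H' none) ≤ FixedPoints.subalgebra ℂ K (H 0) := by
        intro x hx σ
        exact hx ⟨σ.1, Subgroup.mem_top _⟩
      exact ⟨m, j.comp (Subalgebra.inclusion hle), hj.comp (Subalgebra.inclusion_injective hle)⟩
    | some e =>
      refine huni1 e.1 (huni e.1 ?_)
      rw [hγ]
      exact mul_ne_zero (Finset.mem_filter.1 e.2).2 (hwS0 _)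
  have hmach := fun τ : G => machine_corr G ε H' c hcoef huni2 (fun i => τ (ξ i))
  choose B hB hfg hpts using hmach
  choose s hs using fun τ => Subalgebra.fg_def.1 (hfg τ)
  obtain ⟨B', hB'def⟩ : ∃ B' : Subalgebra ℂ K, B' = Algebra.adjoin ℂ (⋃ τ, s τ) := ⟨_, rfl⟩
  have hle : ∀ τ, B τ ≤ B' := by
    intro τ
    rw [← (hs τ).2, hB'def]
    exact Algebra.adjoin_mono (Set.subset_iUnion s τ)
  have hB' : ∀ (σ : G) i, σ (ξ i) ∈ B' := fun σ i => hle 1 (hB 1 σ i)
  refine ⟨B', hB', ?_, ?_⟩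
  · rw [hB'def]
    exact Subalgebra.fg_def.2 ⟨_, Set.finite_iUnion fun τ => (hs τ).1, rfl⟩
  intro Y hY φ φ' p p' hp hp'
  have hkey : ∀ (ψ : B' →ₐ[ℂ] ℂ) (q : G → Y.Pts ℂ),
      (∀ σ i, (q σ).1 i = ψ ⟨σ (ξ i), hB' σ i⟩) →
      ∑ σ, Γ σ • cls (q σ) = ∑ τ, Γ τ • ∑ σ, ε σ • cls (q (σ * τ)) := by
    intro ψ q _
    have h1 : ∀ τ : G, ∑ σ, ε σ • cls (q (σ * τ)) = ∑ ρ, ε (ρ * τ⁻¹) • cls (q ρ) := by
      intro τ
      refine Fintype.sum_equiv (Equiv.mulRight τ) _ _ fun σ => ?_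
      simp
    simp only [h1, Finset.smul_sum, smul_smul]
    rw [Finset.sum_comm]
    refine Finset.sum_congr rfl fun ρ _ => ?_
    rw [← Finset.sum_smul, hε]
  rw [hkey φ p hp, hkey φ' p' hp']
  refine Finset.sum_congr rfl fun τ _ => ?_
  congr 1
  have hYτ : Y.OnCone (fun i => τ (ξ i)) :=
    ProjVar.OnCone.map (τ.toAlgHom.restrictScalars ℂ) hY
  refine hpts τ Y hYτ (φ.comp (Subalgebra.inclusion (hle τ)))
    (φ'.comp (Subalgebra.inclusion (hle τ))) (fun σ => p (σ * τ)) (fun σ => p' (σ * τ)) ?_ ?_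
  · intro σ i
    rw [hp]
    rfl
  · intro σ i
    rw [hp']
    rfl

end Pool.Agent.J4H13.TG
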