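import Pool.Agent.J4H13.TG.Jobs
import Pool.Agent.J4H13.BD.MainB
import Pool.Agent.J4H13.TL.Final

/-!
# Forms and the group ring
-/

set_option autoImplicit false

open FF

namespace Pool.Agent.J4H13.TG

open Pool.Agent.J4H13.BC Pool.Agent.J4H13.LA Pool.Agent.W602.GT Pool.Agent.W603.LV
  Pool.Agent.Helper397.HK Pool.Agent.J4H13.BD Pool.Agent.J4H13.TL

variable {K : Type} [Field K] [Algebra ℂ K]

/-- rational combinations of cube roots of unity: if the combination of the inverses vanishes so does the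
combination -/
lemma conj_comb {n : ℕ} (c : Fin n → ℚ) (z : Fin n → K) (hz : ∀ j, z j ^ 3 = 1)
    (h : ∑ j, (c j : K) * (z j)⁻¹ = 0) : ∑ j, (c j : K) * z j = 0 := by
  have h1 : ∀ j, ∃ t : ℂ, algebraMap ℂ K t = z j := fun j => const_of_cube (hz j)
  choose t ht using h1
  have hchar : CharZero K := charZero_of_C K
  have ht3 : ∀ j, t j ^ 3 = 1 := by
    intro j
    apply (algebraMap ℂ K).injective
    rw [map_pow, ht, hz, map_one]
  have hconj : ∀ j, (starRingEnd ℂ) (t j)⁻¹ = t j := by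
    intro j
    have h2 : ‖t j‖ = 1 := by
      have h3 := congrArg norm (ht3 j)
      rw [norm_pow, norm_one] at h3
      exact (pow_eq_one_iff_of_nonneg (norm_nonneg _) (by norm_num)).1 h3
    have h4 : t j ≠ 0 := by
      intro h5
      rw [h5, norm_zero] at h2
      norm_num at h2
    rw [map_inv₀]
    have h5 := Complex.mul_conj' (t j)
    rw [h2] at h5
    have h6 : t j * (starRingEnd ℂ) (t j) = 1 := by
      rw [h5]
      norm_num
    exact (eq_inv_of_mul_eq_one_left h6).symm
  have h2 : ∑ j, (c j : ℂ) * (t j)⁻¹ = 0 := by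
    apply (algebraMap ℂ K).injective
    rw [map_zero, map_sum, ← h]
    refine Finset.sum_congr rfl fun j _ => ?_
    rw [map_mul, map_inv₀, ht, map_ratCast]
  have h3 := congrArg (starRingEnd ℂ) h2
  rw [map_zero, map_sum] at h3
  have h4 : ∑ j, (c j : ℂ) * t j = 0 := by
    rw [← h3]
    refine Finset.sum_congr rfl fun j _ => ?_
    rw [map_mul, hconj, map_ratCast]
  have h5 := congrArg (algebraMap ℂ K) h4
  rw [map_zero, map_sum] at h5
  rw [← h5]
  refine Finset.sum_congr rfl fun j _ => ?_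
  rw [map_mul, ht, map_ratCast]

variable {x y : K} {n : ℕ} {c : Fin n → ℚ} {g : Fin n → K ≃ₐ[ℂ] K}

/-- no 2-forms with the character -/
lemma no2_of_kills (hg : ∀ j, g j x = x ∧ g j y = y) (h2 : KillsTwo c g) {w : K} {z : Fin n → K}
    (hgw : ∀ j, g j w = z j * w) (hne : ∑ j, (c j : K) * (z j)⁻¹ ≠ 0) :
    No2 (IntermediateField.adjoin ℂ {x, y}) w := by
  intro s hs U hU A hA hreg D₁ D₂
  obtain ⟨ω, hω⟩ : ∃ ω : (Fin 2 → Derivation ℂ K K) → K,
    ω = fun D => wedge (D 0) (D 1) s U * (A / w) := ⟨_, rfl⟩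
  have hpluri : IsPluri 1 ω := by
    intro M D
    rw [hω]
    simp only [wedge, Fin.sum_univ_two, Derivation.add_apply, Derivation.smul_apply, smul_eq_mul,
      Matrix.det_fin_two, pow_one]
    ring
  have h3 := h2 ω hpluri (fun P hP D hD => by
    rw [hω]
    exact hreg P hP _ _ (hD 0) (hD 1)) ![D₁, D₂]
  have h4 : ∀ j, g j (ω fun i => conjDer (g j) (![D₁, D₂] i)) =
      (z j)⁻¹ * (wedge D₁ D₂ s U * (A / w)) := by
    intro j
    rw [hω]
    change g j (wedge (conjDer (g j) D₁) (conjDer (g j) D₂) s U * (A / w)) = _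
    have hs' := fix_adjoin (hg j).1 (hg j).2 s hs
    have hU' := fix_adjoin (hg j).1 (hg j).2 U hU
    rw [map_mul, wedge_conj hs' hU', map_div₀, fix_adjoin (hg j).1 (hg j).2 A hA, hgw]
    rw [div_mul_eq_div_div_swap, div_eq_mul_inv (A / w)]
    ring
  rw [Finset.sum_congr rfl fun j _ => by rw [h4 j]] at h3
  have h7 : (∑ j, (c j : K) * (z j)⁻¹) * (wedge D₁ D₂ s U * (A / w)) = 0 := by
    rw [← h3, Finset.sum_mul]
    refine Finset.sum_congr rfl fun j _ => ?_
    ring
  exact (mul_eq_zero.1 h7).resolve_left hne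

/-- no 1-forms with the character -/
lemma no1_of_kills (hg : ∀ j, g j x = x ∧ g j y = y) (h1 : KillsOne c g) {w : K} {z : Fin n → K}
    (hgw : ∀ j, g j w = z j * w) (hne : ∑ j, (c j : K) * (z j)⁻¹ ≠ 0) :
    No1 (IntermediateField.adjoin ℂ {x, y}) w := by
  intro s hs A hA hreg D
  obtain ⟨η, hη⟩ : ∃ η : Derivation ℂ K K →ₗ[K] K, ∀ D, η D = D s * (A / w) := by
    refine ⟨{ toFun := fun D => D s * (A / w)
              map_add' := fun D D' => by
                simp only [Derivation.add_apply]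
                ring
              map_smul' := fun c D => by
                simp only [Derivation.smul_apply, smul_eq_mul, RingHom.id_apply]
                ring }, fun D => rfl⟩
  have h3 := h1 η (fun P hP D hD => by
    rw [hη]
    exact hreg P hP D hD) D
  have h4 : ∀ j, g j (η (conjDer (g j) D)) = (z j)⁻¹ * (D s * (A / w)) := by
    intro j
    have hs' := fix_adjoin (hg j).1 (hg j).2 s hs
    rw [hη, map_mul, map_div₀, fix_adjoin (hg j).1 (hg j).2 A hA, hgw, conjDer_apply, hs',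
      AlgEquiv.apply_symm_apply, div_mul_eq_div_div_swap, div_eq_mul_inv (A / w)]
    ring
  rw [Finset.sum_congr rfl fun j _ => by rw [h4 j]] at h3
  have h7 : (∑ j, (c j : K) * (z j)⁻¹) * (D s * (A / w)) = 0 := by
    rw [← h3, Finset.sum_mul]
    refine Finset.sum_congr rfl fun j _ => ?_
    ring
  exact (mul_eq_zero.1 h7).resolve_left hne

/-- no forms with the character -/
lemma noForms_of_kills (hg : ∀ j, g j x = x ∧ g j y = y) (h2 : KillsTwo c g) (h1 : KillsOne c g)
    {w : K} (hw3 : w ^ 3 ∈ IntermediateField.adjoin ℂ ({x, y} : Set K))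
    (hne : ∑ j, (c j : K) * g j w ≠ 0) :
    NoForms (IntermediateField.adjoin ℂ {x, y}) w := by
  have hw0 : w ≠ 0 := by
    rintro rfl
    apply hne
    refine Finset.sum_eq_zero fun j _ => ?_
    rw [map_zero, mul_zero]
  obtain ⟨z, hz⟩ : ∃ z : Fin n → K, z = fun j => g j w / w := ⟨_, rfl⟩
  have hgw : ∀ j, g j w = z j * w := by
    intro j
    rw [hz]
    exact (div_mul_cancel₀ _ hw0).symm
  have hz3 : ∀ j, z j ^ 3 = 1 := by
    intro j
    have h3 : (g j w) ^ 3 = w ^ 3 := by
      rw [← map_pow]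
      exact fix_adjoin (hg j).1 (hg j).2 _ hw3
    rw [hz, div_pow, h3, div_self (pow_ne_zero 3 hw0)]
  have hz0 : ∀ j, z j ≠ 0 := by
    intro j h
    have := hz3 j
    rw [h] at this
    norm_num at this
  have e1 : ∑ j, (c j : K) * z j ≠ 0 := by
    intro h
    apply hne
    have h4 : (∑ j, (c j : K) * z j) * w = 0 := by rw [h, zero_mul]
    rw [← h4, Finset.sum_mul]
    refine Finset.sum_congr rfl fun j _ => ?_
    rw [hgw]
    ring
  have e2 : ∑ j, (c j : K) * (z j)⁻¹ ≠ 0 := fun h => e1 (conj_comb c z hz3 h)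
  have hgw2 : ∀ j, g j (w ^ 2) = (z j)⁻¹ * w ^ 2 := by
    intro j
    rw [map_pow, hgw]
    have h4 : (z j)⁻¹ = z j ^ 2 := by
      have h5 := hz3 j
      symm
      apply eq_inv_of_mul_eq_one_left
      linear_combination h5
    rw [h4]
    ring
  have e3 : ∑ j, (c j : K) * ((z j)⁻¹)⁻¹ ≠ 0 := by
    simp only [inv_inv]
    exact e1
  exact ⟨no2_of_kills hg h2 hgw e2, no2_of_kills hg h2 hgw2 e3, no1_of_kills hg h1 hgw e2,
    no1_of_kills hg h1 hgw2 e3⟩

end Pool.Agent.J4H13.TG
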